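import Pool.Agent.H46.CH.DL

/-!
# (TIR) what the instructions of `tmT` do
-/

set_option autoImplicit false

namespace Pool.Agent.H99.CHD

open Classical Pool.Agent.H46.CH
open Pool.Agent.H8.VR (C2)
open Pool.Agent.H8.JS (NTM Cfg Mv IsComp lang num)

theorem pf_TIR : Pool.Agent.H46.CH.T_TIR := by
  intro M br B cd d v v'
  refine ⟨fun i => Iff.rfl, fun q => ?_, ?_⟩
  · have h : (tmT M br B cd d).Rel (.inr (.inl q)) v v' ↔
        ∀ j, v' j = 0 + ∑ k, dl (k = j) * v k := Iff.rfl
    rw [h]
    have h2 : ∀ j : Ct M.k d, 0 + ∑ k, dl (k = j) * v k = v j := by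
      intro j
      rw [zero_add, Finset.sum_eq_single j]
      · simp [dl]
      · intro k _ hk
        simp [dl, hk]
      · intro hj
        exact absurd (Finset.mem_univ j) hj
    constructor
    · intro h1
      funext j
      rw [h1 j, h2 j]
    · rintro rfl j
      rw [h2 j]
  · have h : (tmT M br B cd d).Rel (.inr (.inr ())) v v' ↔
        ∀ j, v' j = 0 + ∑ k : Ct M.k d, 0 * v k := Iff.rfl
    rw [h]
    have h2 : 0 + ∑ k : Ct M.k d, 0 * v k = 0 := by simp
    rw [h2]

end Pool.Agent.H99.CHD
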