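import Pool.Agent.H46.CH.DL

/-!
# (TRB) from sequences to trees
-/

set_option autoImplicit false

namespace Pool.Agent.H99.CHD

open Classical Pool.Agent.H46.CH
open Pool.Agent.H8.VR (C2)
open Pool.Agent.H8.JS (NTM Cfg Mv IsComp lang num)

/-- the sum of the weights over the descendants -/
noncomputable def fS (T : ℕ) (p : ℕ → ℕ) (w : ℕ → ℕ) (t : ℕ) : ℕ :=
  w t + ∑ c ∈ (Finset.Ioc t T).attach, if p c.1 = t then fS T p w c.1 else 0
termination_by T - t
decreasing_by
  have h := Finset.mem_Ioc.1 c.2
  omega

lemma fS_eq (T : ℕ) (p w : ℕ → ℕ) (t : ℕ) :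
    fS T p w t = w t + ∑ c ∈ Finset.Ioc t T, if p c = t then fS T p w c else 0 := by
  rw [fS]
  congr 1
  exact Finset.sum_attach (Finset.Ioc t T) fun c => if p c = t then fS T p w c else 0

lemma fS_total (T : ℕ) (p w : ℕ → ℕ) (hp : ∀ t, 0 < t → p t < t) :
    ∑ t ∈ Finset.range (T + 1), w t = fS T p w 0 := by
  have key : ∀ m, 1 ≤ m → m ≤ T + 1 → ∑ t ∈ Finset.range m, w t +
      ∑ c ∈ Finset.Ico m (T + 1), (if p c < m then fS T p w c else 0) = fS T p w 0 := by
    intro m hm
    induction m, hm using Nat.le_induction with
    | base =>
      intro _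
      rw [fS_eq T p w 0, Finset.sum_range_one]
      congr 1
      have e : Finset.Ico 1 (T + 1) = Finset.Ioc 0 T := by
        ext x
        simp only [Finset.mem_Ico, Finset.mem_Ioc]
        omega
      rw [e]
      refine Finset.sum_congr rfl fun c _ => ?_
      by_cases h : p c = 0
      · rw [if_pos (by omega), if_pos h]
      · rw [if_neg (by omega), if_neg h]
    | succ m hm ih =>
      intro hmT
      rw [← ih (by omega), Finset.sum_range_succ,
        Finset.sum_eq_sum_Ico_succ_bot (show m < T + 1 by omega), if_pos (hp m (by omega)),
        fS_eq T p w m]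
      have e : Finset.Ioc m T = Finset.Ico (m + 1) (T + 1) := by
        ext x
        simp only [Finset.mem_Ico, Finset.mem_Ioc]
        omega
      rw [e]
      have h1 : ∑ c ∈ Finset.Ico (m + 1) (T + 1), (if p c < m + 1 then fS T p w c else 0) =
          ∑ c ∈ Finset.Ico (m + 1) (T + 1), (if p c = m then fS T p w c else 0) +
          ∑ c ∈ Finset.Ico (m + 1) (T + 1), (if p c < m then fS T p w c else 0) := by
        rw [← Finset.sum_add_distrib]
        refine Finset.sum_congr rfl fun c _ => ?_
        rcases lt_trichotomy (p c) m with h | h | h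
        · rw [if_pos (by omega), if_neg (by omega), if_pos h, zero_add]
        · rw [if_pos (by omega), if_pos h, if_neg (by omega), add_zero]
        · rw [if_neg (by omega), if_neg (by omega), if_neg (by omega)]
      rw [h1]
      ring
  have h := key (T + 1) (by omega) le_rfl
  rw [Finset.Ico_self, Finset.sum_empty, add_zero] at h
  exact h

theorem pf_TRB : Pool.Agent.H46.CH.T_TRB := by
  intro J _ M T p sd es vs e hTR h0
  let w : Bool → ℕ → ℕ := fun b t => if M.sto (es (p t)) (es t) = b then 1 + ∑ j, vs t j else 0
  have hw : ∀ t i, es t = some i → ∀ b, w b t = M.own i (vs t) b := by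
    intro t i h b
    simp only [w, BM.own, h, BM.sto]
  have hex : ∀ t ≤ T, 0 < t → ∀ i, es (p t) = some i → M.Rel i (vs (p t)) (vs t) ∧
      (sd t = true → M.ar i = true) ∧
      ∀ i', es t = some i' → if sd t = true then M.nr i i' else M.nx i i' := by
    intro t ht h0t i hi
    obtain ⟨i1, h1, h2, h3, h4⟩ := hTR.step t ht h0t
    have : i1 = i := by
      rw [hi] at h1
      exact (Option.some.inj h1).symm
    subst this
    exact ⟨h2, h3, h4⟩
  have key : ∀ k t, T - t ≤ k → t ≤ T → ∀ i, es t = some i →
      M.Tre i (vs t) (fun b => fS T p (w b) t) := by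
    intro k
    induction k with
    | zero =>
      intro t hk ht i hi
      obtain ⟨c, ⟨hcT, hc0, hcp, _⟩, _⟩ := hTR.chl t ht i hi
      have := hTR.par c hc0
      omega
    | succ k ih =>
      intro t hk ht i hi
      obtain ⟨c, ⟨hcT, hc0, hcp, hcs⟩, hcu⟩ := hTR.chl t ht i hi
      have hct : t < c := by
        have := hTR.par c hc0
        omega
      have hst := hex c hcT hc0 i (by rw [hcp]; exact hi)
      rw [hcp] at hst
      cases har : M.ar i with
      | true =>
        obtain ⟨c', ⟨hcT', hc0', hcp', hcs'⟩, hcu'⟩ := hTR.chr t ht i hi har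
        have hct' : t < c' := by
          have := hTR.par c' hc0'
          omega
        have hst' := hex c' hcT' hc0' i (by rw [hcp']; exact hi)
        rw [hcp'] at hst'
        have hne : c ≠ c' := by
          intro h
          rw [h, hcs'] at hcs
          exact absurd hcs (by simp)
        obtain ⟨i1, hi1⟩ : ∃ i1, es c = some i1 := by
          rcases h : es c with _ | i1
          · obtain ⟨_, _, i2, h2, _, h4⟩ := hTR.leaf c hcT h
            rw [hcp, hi] at h2
            rw [← Option.some.inj h2, har] at h4
            exact absurd h4 (by simp)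
          · exact ⟨i1, rfl⟩
        obtain ⟨i2, hi2⟩ : ∃ i2, es c' = some i2 := by
          rcases h : es c' with _ | i2
          · obtain ⟨_, _, i3, h2, _, h4⟩ := hTR.leaf c' hcT' h
            rw [hcp', hi] at h2
            rw [← Option.some.inj h2, har] at h4
            exact absurd h4 (by simp)
          · exact ⟨i2, rfl⟩
        have hn1 : M.nx i i1 := by
          have h := hst.2.2 i1 hi1
          rw [hcs] at h
          simpa using h
        have hn2 : M.nr i i2 := by
          have h := hst'.2.2 i2 hi2
          rw [hcs'] at h
          simpa using h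
        refine BM.Tre.two i (vs t) i1 (vs c) (fun b => fS T p (w b) c) i2 (vs c')
          (fun b => fS T p (w b) c') _ har hn1 hn2 hst.1 hst'.1
          (ih c (by omega) hcT i1 hi1) (ih c' (by omega) hcT' i2 hi2) ?_
        intro b
        have h1 : ∑ x ∈ Finset.Ioc t T, (if p x = t then fS T p (w b) x else 0) =
            ∑ x ∈ Finset.Ioc t T, ((if x = c then fS T p (w b) c else 0) +
              (if x = c' then fS T p (w b) c' else 0)) := by
          refine Finset.sum_congr rfl fun x hx => ?_
          have hx' := Finset.mem_Ioc.1 hx
          by_cases hxt : p x = t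
          · rw [if_pos hxt]
            cases hsx : sd x with
            | false =>
              have : x = c := hcu x ⟨hx'.2, by omega, hxt, hsx⟩
              rw [this, if_pos rfl, if_neg hne, add_zero]
            | true =>
              have : x = c' := hcu' x ⟨hx'.2, by omega, hxt, hsx⟩
              rw [this, if_neg hne.symm, if_pos rfl, zero_add]
          · rw [if_neg hxt, if_neg (fun h => hxt (by rw [h]; exact hcp)),
              if_neg (fun h => hxt (by rw [h]; exact hcp'))]
        change fS T p (w b) t = _
        rw [fS_eq T p (w b) t, h1, Finset.sum_add_distrib, Finset.sum_ite_eq',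
          Finset.sum_ite_eq', if_pos (Finset.mem_Ioc.2 ⟨hct, hcT⟩),
          if_pos (Finset.mem_Ioc.2 ⟨hct', hcT'⟩), hw t i hi b]
        ring
      | false =>
        have h1 : ∀ b, ∑ x ∈ Finset.Ioc t T, (if p x = t then fS T p (w b) x else 0) =
            fS T p (w b) c := by
          intro b
          have h2 : ∑ x ∈ Finset.Ioc t T, (if p x = t then fS T p (w b) x else 0) =
              ∑ x ∈ Finset.Ioc t T, (if x = c then fS T p (w b) c else 0) := by
            refine Finset.sum_congr rfl fun x hx => ?_
            have hx' := Finset.mem_Ioc.1 hx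
            by_cases hxt : p x = t
            · have hsx : sd x = false := by
                cases hsx : sd x with
                | false => rfl
                | true =>
                  have h3 := (hex x hx'.2 (by omega) i (by rw [hxt]; exact hi)).2.1 hsx
                  rw [har] at h3
                  exact absurd h3 (by simp)
              have : x = c := hcu x ⟨hx'.2, by omega, hxt, hsx⟩
              rw [if_pos hxt, this, if_pos rfl]
            · rw [if_neg hxt, if_neg (fun h => hxt (by rw [h]; exact hcp))]
          rw [h2, Finset.sum_ite_eq', if_pos (Finset.mem_Ioc.2 ⟨hct, hcT⟩)]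
        rcases hc : es c with _ | i1
        · obtain ⟨hv, _, i2, h2, hfi, _⟩ := hTR.leaf c hcT hc
          rw [hcp, hi] at h2
          have hii : i2 = i := (Option.some.inj h2).symm
          subst hii
          have hvs : vs c = fun _ => 0 := funext hv
          have hrel := hst.1
          rw [hvs] at hrel
          refine BM.Tre.fin i2 (vs t) _ har hfi hrel ?_
          intro b
          rw [fS_eq T p (w b) t, h1, fS_eq T p (w b) c, hw t i2 hi b]
          have h3 : ∑ x ∈ Finset.Ioc c T, (if p x = c then fS T p (w b) x else 0) = 0 := by
            refine Finset.sum_eq_zero fun x hx => ?_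
            have hx' := Finset.mem_Ioc.1 hx
            rw [if_neg]
            intro hxc
            obtain ⟨i3, h4, _⟩ := hTR.step x hx'.2 (by omega)
            rw [hxc, hc] at h4
            exact absurd h4 (by simp)
          have h4 : w b c = if M.st i2 = b then 1 else 0 := by
            simp only [w, hcp, hi, hc, BM.sto, hv, Finset.sum_const_zero, add_zero]
          rw [h3, h4, add_zero]
        · have hn1 : M.nx i i1 := by
            have h := hst.2.2 i1 hc
            rw [hcs] at h
            simpa using h
          refine BM.Tre.one i (vs t) i1 (vs c) (fun b => fS T p (w b) c) _ har hn1 hst.1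
            (ih c (by omega) hcT i1 hc) ?_
          intro b
          rw [fS_eq T p (w b) t, h1, hw t i hi b]
  exact ⟨fun b => fS T p (w b) 0, key T 0 (by omega) (by omega) e h0, fun b =>
    fS_total T p (w b) hTR.par⟩

end Pool.Agent.H99.CHD
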